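import Pool.Agent.W477.CN.Defs

/-! Equidecomposability: disjoint unions and shifts. -/

namespace W477.CN.W824Add

open W477.CN Set

/-- the permutation that moves the levels below n upward by N -/
def perm (n N : ℕ) : Equiv.Perm ℕ where
  toFun m := if m < n then m + N else if m < n + N then m - n else m
  invFun m := if m < N then m + n else if m < n + N then m - N else m
  left_inv m := by
    dsimp only
    split_ifs <;> omega
  right_inv m := by
    dsimp only
    split_ifs <;> omega

theorem perm_apply (n N m : ℕ) (h : m < n) : perm n N m = m + N := by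
  change (if m < n then m + N else if m < n + N then m - n else m) = m + N
  rw [if_pos h]

theorem add_holds (_ : P_star) : P_add := by
  intro X G _ _ 𝒜 _ _
  refine ⟨?_, ?_⟩
  · rintro A A' B B' hAB hAB' ⟨ι, _, P, h, hP, hd, hU, hd', hU'⟩ ⟨κ, _, Q, g, hQ, he, hV, he', hV'⟩
    have hPA : ∀ i, P i ⊆ A := fun i => hU ▸ subset_iUnion P i
    have hQB : ∀ i, Q i ⊆ B := fun i => hV ▸ subset_iUnion Q i
    have hPA' : ∀ i, act (h i) '' P i ⊆ A' := fun i =>
      hU' ▸ subset_iUnion (fun i => act (h i) '' P i) i
    have hQB' : ∀ i, act (g i) '' Q i ⊆ B' := fun i =>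
      hV' ▸ subset_iUnion (fun i => act (g i) '' Q i) i
    refine ⟨ι ⊕ κ, inferInstance, Sum.elim P Q, Sum.elim h g, ?_, ?_, ?_, ?_, ?_⟩
    · rintro (i | i)
      · exact hP i
      · exact hQ i
    · rintro (i | i) (j | j) hij
      · exact hd i j fun h' => hij (by rw [h'])
      · exact hAB.mono (hPA i) (hQB j)
      · exact hAB.symm.mono (hQB i) (hPA j)
      · exact he i j fun h' => hij (by rw [h'])
    · rw [iUnion_sum]
      simp only [Sum.elim_inl, Sum.elim_inr]
      rw [hU, hV]
    · rintro (i | i) (j | j) hij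
      · exact hd' i j fun h' => hij (by rw [h'])
      · exact hAB'.mono (hPA' i) (hQB' j)
      · exact hAB'.symm.mono (hQB' i) (hPA' j)
      · exact he' i j fun h' => hij (by rw [h'])
    · rw [iUnion_sum]
      simp only [Sum.elim_inl, Sum.elim_inr]
      rw [hU', hV']
  · rintro A hA N
    have hA' := hA
    obtain ⟨n, f, hf, rfl⟩ := hA'
    refine ⟨Unit, inferInstance, fun _ => {p : X × ℕ | p.2 < n ∧ p.1 ∈ f p.2},
      fun _ => (1, perm n N), fun _ => hA, ?_, iUnion_const _, ?_, ?_⟩
    · intro i j hij
      exact absurd rfl hij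
    · intro i j hij
      exact absurd rfl hij
    · rw [iUnion_const]
      ext p
      constructor
      · rintro ⟨q, hq, rfl⟩
        refine ⟨q, hq, ?_⟩
        change ((1 : G) • q.1, perm n N q.2) = _
        rw [one_smul, perm_apply n N _ hq.1]
      · rintro ⟨q, hq, rfl⟩
        refine ⟨q, hq, ?_⟩
        change ((1 : G) • q.1, perm n N q.2) = _
        rw [one_smul, perm_apply n N _ hq.1]

end W477.CN.W824Add
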